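import Pool.Agent.H77.EA.Targets3
import Pool.Agent.H77.EA.IN

/-!
# MP_657073_al, module XF: the numbers of invariant extensions
-/

open scoped Classical ComplexConjugate

set_option linter.unusedSectionVars false

namespace Pool.Agent.H62.EA

open AMe AMc Pool.Agent.H77.EA

section

variable {Γ : Type} [Group Γ]

/-- the index does not change on intersecting with a supplement -/
theorem relIndex_inf {X K N : Subgroup Γ} (hKX : K ≤ X)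
    (hnor : ∀ u ∈ X, ∀ g ∈ K, u * g * u⁻¹ ∈ K) (hfra : ∀ x ∈ X, ∃ k ∈ K, k * x ∈ N) :
    (K ⊓ N).relIndex (X ⊓ N) = K.relIndex X := by
  have h1 : (K ⊓ N).relIndex (X ⊓ N) = K.relIndex (X ⊓ N) := by
    have h2 : K ⊓ N = K ⊓ (X ⊓ N) := by
      rw [← inf_assoc, inf_eq_left.2 hKX]
    rw [h2, Subgroup.inf_relIndex_right]
  rw [h1]
  have hle : X ⊓ N ≤ X := inf_le_left
  refine Nat.card_congr (Equiv.ofBijective (Subgroup.quotientSubgroupOfEmbeddingOfLE K hle)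
    ⟨(Subgroup.quotientSubgroupOfEmbeddingOfLE K hle).injective, ?_⟩)
  intro q
  induction q using QuotientGroup.induction_on with
  | H x =>
    obtain ⟨k, hk, hkx⟩ := hfra x.1 x.2
    refine ⟨QuotientGroup.mk ⟨k * x.1, X.mul_mem (hKX hk) x.2, hkx⟩, ?_⟩
    rw [Subgroup.quotientSubgroupOfEmbeddingOfLE_apply_mk]
    rw [QuotientGroup.eq, Subgroup.mem_subgroupOf]
    have h3 := hnor x.1⁻¹ (X.inv_mem x.2) k⁻¹ (K.inv_mem hk)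
    have h4 : (((Subgroup.inclusion hle ⟨k * x.1, X.mul_mem (hKX hk) x.2, hkx⟩)⁻¹ * x : X) : Γ)
        = x.1⁻¹ * k⁻¹ * x.1⁻¹⁻¹ := by
      simp only [Subgroup.coe_mul, Subgroup.coe_inv, Subgroup.coe_inclusion]
      group
    rw [h4]
    exact h3

/-- powers of `u γ` modulo `X` -/
theorem pow_mul_mem {X : Subgroup Γ} {u γ : Γ} (hu : u ∈ X) (hγ : Nm γ X) (c : ℕ) :
    (u * γ) ^ c * (γ ^ c)⁻¹ ∈ X := by
  induction c with
  | zero => simp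
  | succ c ih =>
    have h1 : (u * γ) ^ (c + 1) * (γ ^ (c + 1))⁻¹ =
        ((u * γ) ^ c * (γ ^ c)⁻¹) * (γ ^ c * u * (γ ^ c)⁻¹) := by
      rw [pow_succ, pow_succ]
      group
    rw [h1]
    exact X.mul_mem ih ((nm_pow hγ c u).2 hu)

theorem dat_of {Q : Type} [CommGroup Q] {s : Γ →* Q} {X E : Subgroup Γ} {u γ : Γ}
    (hu : u ∈ X) (hγ : Nm γ X) (hker : X ≤ s.ker) (hpow : ∀ c : ℕ, s γ ^ c = 1 → γ ^ c ∈ X)
    (hE : E ≤ X) (hn : u * γ ∈ Subgroup.normalizer (E : Set Γ)) :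
    Dat s X E (u * γ) (orderOf (s γ)) := by
  have hs : s (u * γ) = s γ := by
    rw [map_mul, MonoidHom.mem_ker.1 (hker hu), one_mul]
  refine ⟨nm_mul (nm_of_mem hu) hγ, hker, ?_, by rw [hs], hE, hn⟩
  intro c hc
  rw [hs] at hc
  have h1 := X.mul_mem (pow_mul_mem hu hγ c) (hpow c hc)
  have h2 : (u * γ) ^ c * (γ ^ c)⁻¹ * γ ^ c = (u * γ) ^ c := by group
  rwa [h2] at h1

variable [Fintype Γ] {F : Type} [Field F] {π : integralClosure ℤ ℂ →+* F}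

/-- the invariant characters of height zero above -/
theorem k0f_eq_abvR {ℓ : ℕ} {X K P E : Subgroup Γ} {χ₁ χ : Γ → ℂ} {γ : Γ}
    (h : ∀ χ' : Γ → ℂ, χ' ∈ K0H π ℓ X χ₁ E ↔
      χ' ∈ IrrS X ∧ ∃ θ' ∈ K0H π ℓ K χ P, ∀ k ∈ K, χ' k = θ' k) :
    K0F π ℓ X χ₁ E γ = AbvR X K (K0H π ℓ K χ P) γ := by
  ext χ'
  constructor
  · rintro ⟨h1, h2⟩
    obtain ⟨h3, h4⟩ := (h χ').1 h1
    exact ⟨h3, h2, h4⟩
  · rintro ⟨h1, h2, h3⟩
    exact ⟨(h χ').2 ⟨h1, h3⟩, h2⟩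

end

/-- XF: the numbers of `γ`-invariant extensions -/
theorem xf (hXE : T_XE) (hUD : T_UD) (hST : T_ST) (hTC : T_TC) (hDG : T_DG) (hE4 : T_E4)
    (hS1 : T_S1) (hS7 : T_S7) : T_XF := by
  intro F _ π hπ ℓ _ _ Γ _ _ Q _ _ s X K P γ n hD hEqv χ hχ hdef ψ hψ hcor hblk hsta
  have hKX : K ≤ X := hD.lp.le
  have hnor := hD.lp.nor
  have hKX' : K ⊓ Subgroup.normalizer (P : Set Γ) ≤ X ⊓ Subgroup.normalizer (P : Set Γ) :=
    inf_le_inf_right _ hKX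
  have hidx := relIndex_inf hKX hnor hD.fra
  have hLP' : LP ℓ (X ⊓ Subgroup.normalizer (P : Set Γ))
      (K ⊓ Subgroup.normalizer (P : Set Γ)) := by
    refine ⟨hKX', ?_, ?_⟩
    · rintro u ⟨hu, hu'⟩ g ⟨hg, hg'⟩
      exact ⟨hnor u hu g hg, Subgroup.mul_mem _ (Subgroup.mul_mem _ hu' hg')
        (Subgroup.inv_mem _ hu')⟩
    · rw [hidx]; exact hD.lp.idx
  have hNmN : Nm γ (Subgroup.normalizer (P : Set Γ)) := nm_of_mem hD.nmP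
  have hγX' : Nm γ (X ⊓ Subgroup.normalizer (P : Set Γ)) := nm_inf hD.nmX hNmN
  have hγK' : Nm γ (K ⊓ Subgroup.normalizer (P : Set Γ)) := nm_inf hD.nmK hNmN
  obtain ⟨hdef', -, heq'⟩ := ((hST F π hπ ℓ Γ K P).1 χ hχ hdef).2 ψ hψ hcor
  obtain ⟨hsta', hiff⟩ := hUD F π hπ ℓ Γ X K P hKX hnor χ hχ hdef hsta ψ hψ hcor
  have hblk' : Blk π (K ⊓ Subgroup.normalizer (P : Set Γ)) ψ (cj γ ψ) :=
    (heq' γ hD.nmP hD.nmK).1 hblk
  -- the characters above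
  obtain ⟨χ₁, hχ₁, ho⟩ := hE4 Γ K X hKX χ hχ
  obtain ⟨ξ, hξ, ho'⟩ := hE4 Γ _ _ hKX' ψ hψ
  obtain ⟨hb1, -, hk1⟩ := hXE F π hπ ℓ Γ X K P hD.lp χ hχ hdef hsta
  obtain ⟨hb2, hd2, hk2⟩ := hXE F π hπ ℓ Γ _ _ P hLP' ψ hψ hdef' hsta'
  -- the defect group
  obtain ⟨E, hE1, hE2, hE3⟩ := hd2 ξ hξ ho'
  have hEX' : E ≤ X ⊓ Subgroup.normalizer (P : Set Γ) := hE1.2.1
  have hEX : E ≤ X := hEX'.trans inf_le_left
  have hPE : P ≤ E := by rw [← hE2]; exact inf_le_left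
  have hEK : E ⊓ K = P := by
    apply le_antisymm
    · rw [← hE2]
      exact le_inf inf_le_left (le_inf inf_le_right (inf_le_left.trans (hEX'.trans inf_le_right)))
    · exact le_inf hPE hD.leP
  -- correspondence of the characters above
  have hc : Cor π X P χ₁ ξ := by
    obtain ⟨χ₂, h2, hc2⟩ := (hST F π hπ ℓ Γ X P).2 hdef.1 (hD.leP.trans hKX) ξ hξ
    obtain ⟨θ₁, h3, h4, h5⟩ := (hiff χ₂ h2 ξ hξ hc2).2 ⟨ψ, hψ, ho', blk_refl _ _⟩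
    have hb : Blk π X χ₁ χ₂ := hb1 χ₁ hχ₁ χ₂ h2 χ hχ θ₁ h3 ho h4 (blk_refl _ _) h5
    intro z hz
    rw [← hb z hz]
    exact hc2 z hz
  obtain ⟨β, hβ, hcβ⟩ := ((hST F π hπ ℓ Γ (X ⊓ Subgroup.normalizer (P : Set Γ)) E).1 ξ hξ
    hE1).1
  have hNE : X ⊓ Subgroup.normalizer (E : Set Γ) ≤ Subgroup.normalizer (P : Set Γ) := by
    rintro x ⟨hx, hx'⟩
    have h1 : Nm x (E ⊓ K) := nm_inf (nm_of_normalizer hx') (nor_iff hnor hx)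
    rw [hEK] at h1
    exact normalizer_of_nm h1
  obtain ⟨hEq, hcorE, hdefE⟩ := hTC F π hπ ℓ Γ X P E hPE hE1.1 hNE χ₁ hχ₁ ξ hξ hc hE1 β hβ hcβ
  -- invariance of the blocks above
  have hbξ : Blk π (X ⊓ Subgroup.normalizer (P : Set Γ)) ξ (cj γ ξ) :=
    hb2 ξ hξ _ (cj_mem hS7 hγX' hξ) ψ hψ _ (cj_mem hS7 hγK' hψ) ho' (over_cj γ ho')
      (blk_refl _ _) hblk'
  have hbχ : Blk π X χ₁ (cj γ χ₁) :=
    hb1 χ₁ hχ₁ _ (cj_mem hS7 hD.nmX hχ₁) χ hχ _ (cj_mem hS7 hD.nmK hχ) ho (over_cj γ ho)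
      (blk_refl _ _) hblk
  obtain ⟨u, hu, huE⟩ := hDG F π hπ ℓ Γ _ E γ hγX' ξ hξ hE1 hbξ
  have hu1 : ∀ θ ∈ IrrS X, cj (u * γ) θ = cj γ θ := by
    intro θ hθ
    rw [cj_mul, cj_of_mem hS1 hθ hu.1]
  have hu2 : ∀ θ ∈ IrrS (X ⊓ Subgroup.normalizer (P : Set Γ)), cj (u * γ) θ = cj γ θ := by
    intro θ hθ
    rw [cj_mul, cj_of_mem hS1 hθ hu]
  -- the equality for the groups above, twice
  have k1 : (K0F π ℓ X χ₁ E (u * γ)).ncard =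
      (K0F π ℓ (X ⊓ Subgroup.normalizer (E : Set Γ)) β E (u * γ)).ncard :=
    hEqv _ Q s X E (u * γ) (dat_of hu.1 hD.nmX hD.ker hD.pow hEX huE) trivial χ₁ hχ₁ hdefE β
      (by rw [← hEq]; exact hβ) hcorE (by rw [hu1 χ₁ hχ₁]; exact hbχ)
  have k2 : (K0F π ℓ (X ⊓ Subgroup.normalizer (P : Set Γ)) ξ E (u * γ)).ncard =
      (K0F π ℓ (X ⊓ Subgroup.normalizer (P : Set Γ) ⊓ Subgroup.normalizer (E : Set Γ)) β E
        (u * γ)).ncard :=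
    hEqv _ Q s _ E (u * γ) (dat_of hu hγX' (inf_le_left.trans hD.ker)
      (fun c hc => ⟨hD.pow c hc, Subgroup.pow_mem _ hD.nmP c⟩) hEX' huE) trivial ξ hξ hE1 β
      hβ hcβ (by rw [hu2 ξ hξ]; exact hbξ)
  rw [k0f_congr hu1] at k1
  rw [k0f_congr hu2, hEq] at k2
  rw [← k0f_eq_abvR (hk1 χ₁ hχ₁ ho E hEX hPE (hE3.trans hidx)),
    ← k0f_eq_abvR (hk2 ξ hξ ho' E hEX' hPE hE3), k1, k2]

end Pool.Agent.H62.EA
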