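import Pool.Agent.H77.EA.Targets3

/-!
# MP_657073_al, module XH: fixed points on a torsor (coprime action)
-/

open scoped Classical ComplexConjugate

namespace Pool.Agent.H62.EA

open AMe AMc

theorem xh : T_XH := by
  intro ℓ _ L T _ _ _ hL hT hne σ s n hσ hn hln
  obtain ⟨t₀⟩ := hne
  obtain ⟨l₀, hl₀, -⟩ := hT t₀ (σ t₀)
  have hcop : (Nat.card L).Coprime n := by
    obtain ⟨k, hk⟩ := (IsPGroup.iff_card.mp hL)
    rw [hk]
    exact Nat.Coprime.pow_left k ((Nat.Prime.coprime_iff_not_dvd Fact.out).mpr hln)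
  let c : ℕ → L := fun i => Nat.rec 1 (fun _ x => s x * l₀) i
  have hc0 : c 0 = 1 := rfl
  have hcs : ∀ i, c (i + 1) = s (c i) * l₀ := fun i => rfl
  have hci : ∀ i, σ^[i] t₀ = c i • t₀ := by
    intro i
    induction i with
    | zero => rw [hc0, one_smul]; rfl
    | succ i ih => rw [Function.iterate_succ_apply', ih, hσ, ← hl₀, hcs, mul_smul]
  have hcn : c n = 1 := by
    obtain ⟨μ, -, hμ⟩ := hT t₀ t₀
    have h1 : c n • t₀ = t₀ := by rw [← hci, hn]
    rw [hμ (c n) h1, hμ 1 (one_smul _ _)]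
  have hC : s (∏ i ∈ Finset.range n, c i) * l₀ ^ n = ∏ i ∈ Finset.range n, c i := by
    have h1 : s (∏ i ∈ Finset.range n, c i) * l₀ ^ n = ∏ i ∈ Finset.range n, c (i + 1) := by
      rw [map_prod]
      calc (∏ i ∈ Finset.range n, s (c i)) * l₀ ^ n
          = (∏ i ∈ Finset.range n, s (c i)) * ∏ _i ∈ Finset.range n, l₀ := by
            rw [Finset.prod_const, Finset.card_range]
        _ = ∏ i ∈ Finset.range n, (s (c i) * l₀) := Finset.prod_mul_distrib.symm
        _ = ∏ i ∈ Finset.range n, c (i + 1) := rfl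
    rw [h1]
    have h2 := Finset.prod_range_succ c n
    rw [Finset.prod_range_succ', hc0, hcn, mul_one, mul_one] at h2
    exact h2
  obtain ⟨μ, hμ⟩ := (powCoprime hcop).surjective (∏ i ∈ Finset.range n, c i)
  have hμ' : μ ^ n = ∏ i ∈ Finset.range n, c i := hμ
  have hμs : s μ * l₀ = μ := by
    apply (powCoprime hcop).injective
    change (s μ * l₀) ^ n = μ ^ n
    rw [mul_pow, ← map_pow, hμ', hC]
  have ht₁ : σ (μ • t₀) = μ • t₀ := by
    rw [hσ, ← hl₀, ← mul_smul, hμs]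
  refine (Nat.card_congr (Equiv.ofBijective (fun x : {x : L // s x = x} =>
    (⟨x.1 • (μ • t₀), by rw [hσ, ht₁, x.2]⟩ : {t // σ t = t})) ⟨?_, ?_⟩)).symm
  · intro x y h
    have h' : x.1 • (μ • t₀) = y.1 • (μ • t₀) := congrArg Subtype.val h
    obtain ⟨z, -, hz⟩ := hT (μ • t₀) (y.1 • (μ • t₀))
    apply Subtype.ext
    rw [hz x.1 h', hz y.1 rfl]
  · intro t
    obtain ⟨x, hx, hux⟩ := hT (μ • t₀) t.1
    refine ⟨⟨x, ?_⟩, Subtype.ext hx⟩
    apply hux
    have h3 := congrArg σ hx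
    rw [hσ, ht₁, t.2] at h3
    exact h3

end Pool.Agent.H62.EA
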