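import Pool.Agent.H77.EA.Targets2
import Pool.Agent.H3.AM.Basic

/-!
# Congruences of central characters on `ℓ`-regular elements (MP_657073_al, module GB)
-/

open scoped Classical

namespace Pool.Agent.H62.EA

open AMc AMe

theorem exists_field' (ℓ : ℕ) [Fact ℓ.Prime] (𝔪 : Ideal (integralClosure ℤ ℂ))
    (h𝔪 : 𝔪.IsMaximal) (hℓ : (ℓ : integralClosure ℤ ℂ) ∈ 𝔪) :
    ∃ (F : Type) (_ : Field F) (π : integralClosure ℤ ℂ →+* F),
      Function.Surjective π ∧ RingHom.ker π = 𝔪 ∧ CharP F ℓ := by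
  refine ⟨integralClosure ℤ ℂ ⧸ 𝔪, Ideal.Quotient.field 𝔪, Ideal.Quotient.mk 𝔪,
    Ideal.Quotient.mk_surjective, Ideal.mk_ker, ?_⟩
  let _ := Ideal.Quotient.field 𝔪
  rw [CharP.charP_iff_prime_eq_zero Fact.out]
  have : Ideal.Quotient.mk 𝔪 (ℓ : integralClosure ℤ ℂ) = 0 := Ideal.Quotient.eq_zero_iff_mem.2 hℓ
  rw [map_natCast] at this
  exact this

theorem cen_eq_om {N : Type} [Group N] [Fintype N] (a : N → ℂ) (x : N) :
    cen (MonoidHom.id N) a x = om a (cls ⊤ x) := by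
  unfold cen om cls
  rw [Finset.sum_filter]
  congr 1
  refine Finset.sum_congr rfl fun y _ => ?_
  have h : IsConj x (MonoidHom.id N y) ↔ ∃ u ∈ (⊤ : Subgroup N), y = u * x * u⁻¹ := by
    rw [MonoidHom.id_apply, isConj_iff]
    constructor
    · rintro ⟨c, hc⟩
      exact ⟨c, Subgroup.mem_top c, hc.symm⟩
    · rintro ⟨c, _, hc⟩
      exact ⟨c, hc.symm⟩
  by_cases hx : IsConj x (MonoidHom.id N y)
  · rw [if_pos hx, if_pos (h.1 hx)]
  · rw [if_neg hx, if_neg (fun h2 => hx (h.2 h2))]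

theorem conj_orderOf {N : Type} [Group N] {x y : N} (h : IsConj x y) : orderOf y = orderOf x := by
  obtain ⟨c, rfl⟩ := isConj_iff.1 h
  have : c * x * c⁻¹ = MulAut.conj c x := rfl
  rw [this, MulEquiv.orderOf_eq]

theorem same_of_regular (hRS : T_RS) (hK1 : T_K1) (hB1 : T_B1) (hB2 : T_B2)
    (ℓ : ℕ) [Fact ℓ.Prime] (𝔪 : Ideal (integralClosure ℤ ℂ)) (h𝔪 : 𝔪.IsMaximal)
    (hℓ : (ℓ : integralClosure ℤ ℂ) ∈ 𝔪) (N : Type) [Group N] [Fintype N]
    (a : N → ℂ) (ha : a ∈ Irr N) (b : N → ℂ) (hb : b ∈ Irr N)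
    (h : ∀ x : N, ¬ ℓ ∣ orderOf x → Cong 𝔪 (cen (MonoidHom.id N) a x) (cen (MonoidHom.id N) b x)) :
    SameBlock 𝔪 a b := by
  obtain ⟨F, _, π, hπ, rfl, _⟩ := exists_field' ℓ 𝔪 h𝔪 hℓ
  have hr : (MonoidHom.id N).range = ⊤ := MonoidHom.range_eq_top.2 Function.surjective_id
  obtain ⟨k1, k2, -, -⟩ := hK1 N N (MonoidHom.id N) Function.injective_id
  have hext : ∀ c : N → ℂ, extj (MonoidHom.id N) c = c := fun c => by
    funext n
    exact k1 c n
  have ha' : a ∈ IrrS (⊤ : Subgroup N) := by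
    have := (k2 a).1 ha
    rwa [hext, hr] at this
  have hb' : b ∈ IrrS (⊤ : Subgroup N) := by
    have := (k2 b).1 hb
    rwa [hext, hr] at this
  have hL := hB1 F π hπ N ⊤ a ha'
  have hM := hB1 F π hπ N ⊤ b hb'
  have hS : ∀ x : N, ∀ n ∈ (⊤ : Subgroup N), ∀ g ∈ cls ⊤ x, n * g * n⁻¹ ∈ cls ⊤ x :=
    fun x n hn g hg => (cls_conj hn).2 hg
  have hLc := fun x => hB2 F π hπ N ⊤ a ha' (cls ⊤ x) (hS x)
  have hMc := fun x => hB2 F π hπ N ⊤ b hb' (cls ⊤ x) (hS x)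
  -- the two homomorphisms agree on elements supported on regular elements
  have key : ∀ w ∈ ZA F (⊤ : Subgroup N) ⊤, (∀ g, w.coeff g ≠ 0 → ¬ ℓ ∣ orderOf g) →
      lam π a w = lam π b w := by
    intro w hw hreg
    by_contra hne
    obtain ⟨x, -, hx, hx'⟩ := exists_cls_ne_zero (nor_self (⊤ : Subgroup N))
      (fun w => lam π a w - lam π b w)
      (fun z hz w hw => by
        show lam π a (z + w) - lam π b (z + w) = _
        rw [hL.map_add z hz w hw, hM.map_add z hz w hw]; ring)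
      (fun c z hz => by
        show lam π a (c • z) - lam π b (c • z) = _
        rw [hL.map_smul c z hz, hM.map_smul c z hz]; ring) w hw (sub_ne_zero.2 hne)
    apply hx'
    show lam π a (csum F (cls ⊤ x)) - lam π b (csum F (cls ⊤ x)) = 0
    rw [(hLc x).2, (hMc x).2, sub_eq_zero, ← cong_iff π (hLc x).1 (hMc x).1, ← cen_eq_om,
      ← cen_eq_om]
    exact h x (hreg x hx)
  have main : ∀ z ∈ ZA F (⊤ : Subgroup N) ⊤, lam π a z = lam π b z := by
    intro z hz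
    obtain ⟨k, hk⟩ := hRS F ℓ N ⊤ z hz
    have h1 := key (z ^ ℓ ^ k) ((ZA F (⊤ : Subgroup N) ⊤).pow_mem hz _) hk
    rw [hL.map_pow hz, hM.map_pow hz] at h1
    apply iterateFrobenius_inj F ℓ k
    rw [iterateFrobenius_def, iterateFrobenius_def]
    exact h1
  intro x
  rw [cen_eq_om, cen_eq_om]
  rw [cong_iff π (hLc x).1 (hMc x).1, ← (hLc x).2, ← (hMc x).2]
  exact main _ (csum_cls_mem_self (Subgroup.mem_top x))

theorem gb (hRS : T_RS) (hGA : T_GA) (hK1 : T_K1) (hB1 : T_B1) (hB2 : T_B2) : T_GB := by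
  intro ℓ _ 𝔪 h𝔪 hℓ N _ _
  refine ⟨fun a ha b hb h => same_of_regular hRS hK1 hB1 hB2 ℓ 𝔪 h𝔪 hℓ N a ha b hb h, ?_⟩
  intro a ha m hm hg
  refine same_of_regular hRS hK1 hB1 hB2 ℓ 𝔪 h𝔪 hℓ N a ha _ (hGA N a ha m hm) ?_
  intro x hx
  have : cen (MonoidHom.id N) (fun g => a (g ^ m)) x = cen (MonoidHom.id N) a x := by
    unfold cen
    beta_reduce
    rw [one_pow]
    congr 1
    refine Finset.sum_congr rfl fun y _ => ?_
    by_cases hy : IsConj x (MonoidHom.id N y)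
    · rw [if_pos hy, if_pos hy]
      have hy' : IsConj x y := hy
      rw [hg y (by rw [conj_orderOf hy']; exact hx)]
    · rw [if_neg hy, if_neg hy]
  rw [this]
  exact Pool.Agent.H77.EA.cong_refl _

end Pool.Agent.H62.EA
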