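import Pool.Agent.H77.EA.Targets2

/-!
# Normalisers in a quotient (MP_657073_al, module QN)
-/

open scoped Classical

namespace Pool.Agent.H62.EA

open AMc AMe

theorem qn : T_QN := by
  intro G H _ _ _ _ p hp D hD
  have hcm : (D.map p).comap p = D := Subgroup.comap_map_eq_self hD
  have hcn : (Subgroup.normalizer ((D.map p : Subgroup H) : Set H)).comap p =
      Subgroup.normalizer (D : Set G) := by
    rw [Subgroup.comap_normalizer_eq_of_surjective _ hp, hcm]
  have hmem : ∀ x : G, p x ∈ Subgroup.normalizer ((D.map p : Subgroup H) : Set H) ↔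
      x ∈ Subgroup.normalizer (D : Set G) := by
    intro x
    rw [← hcn, Subgroup.mem_comap]
  have hmemD : ∀ x : G, p x ∈ D.map p ↔ x ∈ D := by
    intro x
    conv_rhs => rw [← hcm, Subgroup.mem_comap]
  refine ⟨(Subgroup.index_map_eq D hp hD).symm, ?_⟩
  refine ⟨(p.comp (Subgroup.normalizer (D : Set G)).subtype).codRestrict _
    (fun x => (hmem x).2 x.2), ?_, ?_, ?_, ?_⟩
  · rintro ⟨y, hy⟩
    obtain ⟨x, rfl⟩ := hp y
    exact ⟨⟨x, (hmem x).1 hy⟩, rfl⟩
  · intro x
    rfl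
  · intro x
    rw [Subtype.ext_iff]
    rfl
  · ext y
    obtain ⟨y, hy⟩ := y
    constructor
    · rintro ⟨x, hx, hxy⟩
      rw [← hxy, Subgroup.mem_subgroupOf]
      exact (hmemD x).2 (Subgroup.mem_subgroupOf.1 hx)
    · intro h
      obtain ⟨x, rfl⟩ := hp y
      rw [Subgroup.mem_subgroupOf] at h
      exact ⟨⟨x, (hmem x).1 hy⟩, Subgroup.mem_subgroupOf.2 ((hmemD x).1 h), rfl⟩

end Pool.Agent.H62.EA
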